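import Pool.Agent.X59.PC.Prob

set_option autoImplicit false

/-!
# `f_k(G) = k (δ(G) - 1)` fails for the binomial random graph, for every fixed `k ≥ 2`

`pathCoverNumber H` is the least number of vertex-disjoint paths covering `H` and `deletionSizes G k`
is the set of the sizes of the edge sets `F ⊆ E(G)` such that `G - F` has path cover number `k`, so
`f_k(G)` is its least element.
-/

namespace Pool.Agent.Results.MP_e6ec33_pr.IdentityFails

open Finset Filter Topology Pool.Agent.X59.PC Pool.Agent.W166.Gnp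

/-- Isolating the vertices of `A` costs at most the sum of their degrees. -/
theorem exists_isolating {V : Type*} [Fintype V] [DecidableEq V] (G : SimpleGraph V)
    [DecidableRel G.Adj] (A : Finset V) (hlt : A.card < Fintype.card V) :
    ∃ F : Finset (Sym2 V), (F : Set (Sym2 V)) ⊆ G.edgeSet ∧ F.card ≤ ∑ a ∈ A, G.degree a ∧
      A.card + 1 ≤ pathCoverNumber (G.deleteEdges (F : Set (Sym2 V))) := by
  refine ⟨A.biUnion (fun a => G.incidenceFinset a), ?_, ?_, ?_⟩
  · intro e he
    rw [Finset.mem_coe, Finset.mem_biUnion] at he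
    obtain ⟨a, -, h6⟩ := he
    rw [SimpleGraph.mem_incidenceFinset] at h6
    exact h6.1
  · calc (A.biUnion (fun a => G.incidenceFinset a)).card
        ≤ ∑ a ∈ A, (G.incidenceFinset a).card := Finset.card_biUnion_le
      _ = ∑ a ∈ A, G.degree a := by
          apply Finset.sum_congr rfl
          intro a _
          exact G.card_incidenceFinset_eq_degree a
  · apply card_lt_pcn _ A _ hlt
    intro a ha b hab
    rw [SimpleGraph.deleteEdges_adj] at hab
    apply hab.2
    rw [Finset.mem_coe, Finset.mem_biUnion]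
    refine ⟨a, ha, ?_⟩
    rw [SimpleGraph.mem_incidenceFinset]
    exact ⟨hab.1, by simp⟩

open Classical in
/-- If all degrees are close to `μ` then the identity fails. -/
theorem good_of_degrees {n k : ℕ} (hk : 2 ≤ k) (hn : k ≤ n) (G : SimpleGraph (Fin n)) {μ : ℝ}
    (hμ : 2 * k < μ)
    (hlow : ∀ v, (1 - 1 / (4 * k)) * μ < ((G.neighborSet v).ncard : ℝ))
    (hhigh : ∀ v, ((G.neighborSet v).ncard : ℝ) < (1 + 1 / (4 * k)) * μ) :
    (∃ F : Finset (Sym2 (Fin n)), (F : Set (Sym2 (Fin n))) ⊆ G.edgeSet ∧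
        (F.card : ℤ) < k * ((G.minDegree : ℤ) - 1) ∧
        k ≤ pathCoverNumber (G.deleteEdges (F : Set (Sym2 (Fin n))))) ∧
      ∀ m : ℕ, IsLeast (deletionSizes G k) m → (m : ℤ) < k * ((G.minDegree : ℤ) - 1) := by
  have hne : Nonempty (Fin n) := ⟨⟨0, by omega⟩⟩
  obtain ⟨A, hAsub, hA⟩ := Finset.exists_subset_card_eq
    (s := (Finset.univ : Finset (Fin n))) (n := k - 1) (by rw [Finset.card_univ, Fintype.card_fin]; omega)
  have hkR : (2 : ℝ) ≤ k := by exact_mod_cast hk
  have hsum : ((∑ a ∈ A, G.degree a : ℕ) : ℝ) ≤ ((k : ℝ) - 1) * ((1 + 1 / (4 * k)) * μ) := by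
    rw [Nat.cast_sum]
    calc ∑ a ∈ A, (G.degree a : ℝ) ≤ ∑ _a ∈ A, (1 + 1 / (4 * k)) * μ :=
          Finset.sum_le_sum fun a _ => by rw [degree_ncard]; exact (hhigh a).le
      _ = ((k : ℝ) - 1) * ((1 + 1 / (4 * k)) * μ) := by
          rw [Finset.sum_const, hA, nsmul_eq_mul, Nat.cast_sub (by omega)]
          simp
  have hmin : (1 - 1 / (4 * k)) * μ < (G.minDegree : ℝ) := by
    obtain ⟨v, hv⟩ := G.exists_minimal_degree_vertex
    rw [hv, degree_ncard]
    exact hlow v
  have hμ0 : 0 < μ := by linarith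
  have hkey : ((∑ a ∈ A, G.degree a : ℕ) : ℤ) < k * ((G.minDegree : ℤ) - 1) := by
    have h1 : ((∑ a ∈ A, G.degree a : ℕ) : ℝ) < (k : ℝ) * ((G.minDegree : ℝ) - 1) := by
      refine lt_of_le_of_lt hsum ?_
      have h2 : (k : ℝ) * ((1 - 1 / (4 * k)) * μ - 1) < (k : ℝ) * ((G.minDegree : ℝ) - 1) := by
        apply mul_lt_mul_of_pos_left _ (by linarith)
        linarith
      refine lt_trans ?_ h2
      have h3 : (k : ℝ) * ((1 - 1 / (4 * k)) * μ - 1) = (k - 1 / 4) * μ - k := by
        field_simp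
      have h4 : ((k : ℝ) - 1) * ((1 + 1 / (4 * k)) * μ) = (k - 1 + 1 / 4 - 1 / (4 * k)) * μ := by
        field_simp
        ring
      rw [h3, h4]
      have h5 : (0 : ℝ) < 1 / (4 * k) := by positivity
      nlinarith
    exact_mod_cast h1
  refine ⟨?_, ?_⟩
  · obtain ⟨F, hF1, hF2, hF3⟩ := exists_isolating G A (by rw [Fintype.card_fin]; omega)
    refine ⟨F, hF1, ?_, by omega⟩
    exact lt_of_le_of_lt (by exact_mod_cast hF2) hkey
  · intro m hm
    have := least_le_sum G k m hm A (by omega) (by rw [Fintype.card_fin]; exact hn)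
    exact lt_of_le_of_lt (by exact_mod_cast this) hkey

open Classical in
/-- **The identity `f_k(G) = k (δ(G) - 1)` fails with high probability for every fixed `k ≥ 2`.**
Let `k ≥ 2` and let `p : ℕ → [0,1]` satisfy `n p(n) / log n → ∞`. Then the probability that the
binomial random graph `G ∼ G(n, p(n))` satisfies both
* some set `F` of fewer than `k (δ(G) - 1)` edges of `G` has `μ(G - F) ≥ k`, and
* `f_k(G) < k (δ(G) - 1)` (if `f_k(G)` exists, i.e. if `k` is a value of `μ(G - F)`)
tends to `1` (stated for the complementary event). -/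
theorem result (k : ℕ) (hk : 2 ≤ k) (p : ℕ → unitInterval)
    (hp : Tendsto (fun n : ℕ => (n : ℝ) * (p n : ℝ) / Real.log n) atTop atTop) :
    Tendsto (fun n : ℕ => SimpleGraph.binomialRandom (Fin n) (p n)
      {G | ¬ ((∃ F : Finset (Sym2 (Fin n)), (F : Set (Sym2 (Fin n))) ⊆ G.edgeSet ∧
                (F.card : ℤ) < k * ((G.minDegree : ℤ) - 1) ∧
                k ≤ pathCoverNumber (G.deleteEdges (F : Set (Sym2 (Fin n))))) ∧
              ∀ m : ℕ, IsLeast (deletionSizes G k) m →
                (m : ℤ) < k * ((G.minDegree : ℤ) - 1))})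
      atTop (𝓝 0) := by
  set ε : ℝ := 1 / (4 * k) with hε
  have hkR : (2 : ℝ) ≤ k := by exact_mod_cast hk
  have hε0 : 0 < ε := by positivity
  have hε1 : ε ≤ 1 := by
    rw [hε, div_le_one (by positivity)]
    linarith
  -- the bound of the probability
  have hbound : ∀ᶠ n : ℕ in atTop, SimpleGraph.binomialRandom (Fin n) (p n)
      {G | ¬ ((∃ F : Finset (Sym2 (Fin n)), (F : Set (Sym2 (Fin n))) ⊆ G.edgeSet ∧
                (F.card : ℤ) < k * ((G.minDegree : ℤ) - 1) ∧
                k ≤ pathCoverNumber (G.deleteEdges (F : Set (Sym2 (Fin n))))) ∧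
              ∀ m : ℕ, IsLeast (deletionSizes G k) m →
                (m : ℤ) < k * ((G.minDegree : ℤ) - 1))} ≤ ENNReal.ofReal (2 / n) := by
    have h1 : ∀ᶠ n : ℕ in atTop, 16 / ε ^ 2 ≤ (n : ℝ) * (p n : ℝ) / Real.log n :=
      hp.eventually_ge_atTop _
    have h2 : ∀ᶠ n : ℕ in atTop, 4 * (k : ℝ) + 1 ≤ (n : ℝ) * (p n : ℝ) / Real.log n :=
      hp.eventually_ge_atTop _
    filter_upwards [h1, h2, eventually_ge_atTop (max k 3)] with n hn1 hn2 hn3
    have hnk : k ≤ n := le_trans (le_max_left _ _) hn3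
    have hn3' : 3 ≤ n := le_trans (le_max_right _ _) hn3
    have h0 : (0 : ℝ) ≤ p n := (p n).2.1
    have h1' : (p n : ℝ) ≤ 1 := (p n).2.2
    have hnR : (3 : ℝ) ≤ n := by exact_mod_cast hn3'
    have hlog : 1 ≤ Real.log n := by
      rw [Real.le_log_iff_exp_le (by linarith)]
      have := Real.exp_one_lt_d9
      linarith
    set μ : ℝ := (p n : ℝ) * ((n - 1 : ℕ) : ℝ) with hμ
    have hμ2 : (n : ℝ) * (p n : ℝ) / 2 ≤ μ := by
      rw [hμ, Nat.cast_sub (by omega)]
      push_cast
      nlinarith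
    have hlogpos : 0 < Real.log n := by linarith
    have hA : 16 / ε ^ 2 * Real.log n ≤ (n : ℝ) * (p n : ℝ) := by
      rw [le_div_iff₀ hlogpos] at hn1
      exact hn1
    have hB : (4 * (k : ℝ) + 1) * Real.log n ≤ (n : ℝ) * (p n : ℝ) := by
      rw [le_div_iff₀ hlogpos] at hn2
      exact hn2
    have hμk : 2 * (k : ℝ) < μ := by nlinarith
    have hexp : 2 * n * Real.exp (-(ε ^ 2 / 4 * μ)) ≤ 2 / n := by
      have h3 : 2 * Real.log n ≤ ε ^ 2 / 4 * μ := by
        have h4 : 16 / ε ^ 2 * Real.log n / 2 ≤ μ := by linarith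
        have h5 : 0 < ε ^ 2 := by positivity
        calc 2 * Real.log n = ε ^ 2 / 4 * (16 / ε ^ 2 * Real.log n / 2) := by
              field_simp
              ring
          _ ≤ ε ^ 2 / 4 * μ := by
              apply mul_le_mul_of_nonneg_left h4
              positivity
      have h6 : Real.exp (-(ε ^ 2 / 4 * μ)) ≤ 1 / (n : ℝ) ^ 2 := by
        calc Real.exp (-(ε ^ 2 / 4 * μ)) ≤ Real.exp (-(2 * Real.log n)) :=
              Real.exp_le_exp.mpr (by linarith)
          _ = 1 / (n : ℝ) ^ 2 := by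
              rw [Real.exp_neg, two_mul, Real.exp_add, Real.exp_log (by linarith)]
              field_simp
      calc 2 * n * Real.exp (-(ε ^ 2 / 4 * μ)) ≤ 2 * n * (1 / (n : ℝ) ^ 2) :=
            mul_le_mul_of_nonneg_left h6 (by positivity)
        _ = 2 / n := by field_simp
    refine (binomial_le n (p n) _).trans (ENNReal.ofReal_le_ofReal (le_trans ?_ hexp))
    refine le_trans (Pr_mono h0 h1' ?_) (bad_le n h0 h1' hε0.le hε1)
    intro S hS hbad
    by_contra hcon
    have hc1 : ∀ v : Fin n, (1 - ε) * μ < ((S ∩ star v).card : ℝ) := fun v =>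
      lt_of_not_ge fun h => hcon (Or.inl ⟨v, Finset.mem_univ v, h⟩)
    have hc2 : ∀ v : Fin n, ((S ∩ star v).card : ℝ) < (1 + ε) * μ := fun v =>
      lt_of_not_ge fun h => hcon (Or.inr ⟨v, Finset.mem_univ v, h⟩)
    apply hbad
    apply good_of_degrees hk hnk _ hμk
    · intro v
      rw [ncard_eq hS v]
      exact hc1 v
    · intro v
      rw [ncard_eq hS v]
      exact hc2 v
  refine tendsto_of_tendsto_of_tendsto_of_le_of_le' tendsto_const_nhds ?_
    (Eventually.of_forall fun n => bot_le) hbound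
  rw [← ENNReal.ofReal_zero]
  apply ENNReal.tendsto_ofReal
  exact tendsto_const_div_atTop_nhds_zero_nat 2

end Pool.Agent.Results.MP_e6ec33_pr.IdentityFails
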